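import Pool.Agent.H94.HN.Pd

/-!
Module DTE of MP_6a9259_mp: divergence theorem for radial fields, test functions.
-/

namespace Pool.Agent.H94.HN

open Pool.Agent.H99.HM Pool.Agent.H99.HN
open MeasureTheory Set Filter Topology Real
open scoped ContDiff

/-- the radial derivative -/
noncomputable def Dr (φ : E3 → ℝ) (x : E3) : ℝ := ∑ i, x i / ‖x‖ * pd i φ x

lemma continuous_pd {φ : E3 → ℝ} (hφ : ContDiff ℝ 1 φ) (i : Fin 3) :
    Continuous (fun x => pd i φ x) :=
  (hφ.continuous_fderiv one_ne_zero).clm_apply continuous_const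

lemma continuousAt_norm_comp {B : ℝ → ℝ} (hB : ContinuousOn B (Ioi 0)) {x : E3} (hx : x ≠ 0) :
    ContinuousAt (fun x : E3 => B ‖x‖) x :=
  ContinuousAt.comp (f := fun x : E3 => ‖x‖)
    (hB.continuousAt (Ioi_mem_nhds (norm_pos_iff.2 hx))) continuous_norm.continuousAt

lemma continuousAt_dir {x : E3} (hx : x ≠ 0) (i : Fin 3) :
    ContinuousAt (fun x : E3 => x i / ‖x‖) x := by
  refine ContinuousAt.div ?_ continuous_norm.continuousAt (norm_ne_zero_iff.2 hx)
  exact ((EuclideanSpace.proj i : E3 →L[ℝ] ℝ).continuous).continuousAt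

lemma continuousAt_Dr {φ : E3 → ℝ} (hφ : ContDiff ℝ 1 φ) {x : E3} (hx : x ≠ 0) :
    ContinuousAt (fun x => Dr φ x) x := by
  unfold Dr
  refine tendsto_finsetSum _ fun i _ => ?_
  exact (continuousAt_dir hx i).mul (continuous_pd hφ i).continuousAt

lemma contB_of_C1 {B B1 : ℝ → ℝ} (h : C1 B B1) : ContinuousOn B (Ioi 0) := fun r hr =>
  (h.der r hr).continuousAt.continuousWithinAt

/-- a common bound for a test function and its derivatives -/
lemma test_bound1 {φ : E3 → ℝ} (hφ : IsTest φ) : ∃ C R : ℝ, 0 < C ∧ 0 < R ∧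
    (∀ x, |φ x| ≤ C) ∧ (∀ i x, |pd i φ x| ≤ C) ∧ (∀ x : E3, R ≤ ‖x‖ → φ x = 0) ∧
    (∀ i, ∀ x : E3, R ≤ ‖x‖ → pd i φ x = 0) := by
  obtain ⟨C0, R0, hC0, hR0, hb0, hz0⟩ := Pool.Agent.H49.HM.test_bound hφ
  have h : ∀ i, ∃ C R : ℝ, 0 < C ∧ 0 < R ∧ (∀ x, |pd i φ x| ≤ C) ∧
      ∀ x : E3, R ≤ ‖x‖ → pd i φ x = 0 := fun i =>
    Pool.Agent.H49.HM.test_bound (Pool.Agent.H49.HM.contDiff_pd hφ i)
  choose C1 R1 hC1 hR1 hb1 hz1 using h
  refine ⟨C0 + ∑ i, C1 i, R0 + ∑ i, R1 i, ?_, ?_, ?_, ?_, ?_, ?_⟩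
  · exact add_pos_of_pos_of_nonneg hC0 (Finset.sum_nonneg fun i _ => (hC1 i).le)
  · exact add_pos_of_pos_of_nonneg hR0 (Finset.sum_nonneg fun i _ => (hR1 i).le)
  · intro x
    have := Finset.sum_nonneg fun i (_ : i ∈ Finset.univ) => (hC1 i).le
    linarith [hb0 x]
  · intro i x
    have := Finset.single_le_sum (f := C1) (fun i _ => (hC1 i).le) (Finset.mem_univ i)
    linarith [hb1 i x]
  · intro x hx
    have := Finset.sum_nonneg fun i (_ : i ∈ Finset.univ) => (hR1 i).le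
    exact hz0 x (by linarith)
  · intro i x hx
    have := Finset.single_le_sum (f := R1) (fun i _ => (hR1 i).le) (Finset.mem_univ i)
    exact hz1 i x (by linarith)

/-- the bounded region: a `C¹` function is bounded with its derivatives on a ball -/
lemma c1_bound {ζ : E3 → ℝ} (hζ : ContDiff ℝ 1 ζ) (R : ℝ) : ∃ C, 0 < C ∧
    ∀ x : E3, ‖x‖ ≤ R → |ζ x| ≤ C ∧ ∀ i, |pd i ζ x| ≤ C := by
  obtain ⟨C0, hC0⟩ := (isCompact_closedBall (0 : E3) R).exists_bound_of_continuousOn
    hζ.continuous.continuousOn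
  have h : ∀ i, ∃ C, ∀ x ∈ Metric.closedBall (0 : E3) R, ‖pd i ζ x‖ ≤ C := fun i =>
    (isCompact_closedBall (0 : E3) R).exists_bound_of_continuousOn
      (continuous_pd hζ i).continuousOn
  choose C1 hC1 using h
  refine ⟨|C0| + (∑ i, |C1 i|) + 1, ?_, ?_⟩
  · have := Finset.sum_nonneg fun i (_ : i ∈ Finset.univ) => abs_nonneg (C1 i)
    positivity
  · intro x hx
    have hx' : x ∈ Metric.closedBall (0 : E3) R := by rwa [mem_closedBall_zero_iff]
    have hs := Finset.sum_nonneg fun i (_ : i ∈ Finset.univ) => abs_nonneg (C1 i)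
    refine ⟨?_, fun i => ?_⟩
    · have := hC0 x hx'
      rw [Real.norm_eq_abs] at this
      linarith [le_abs_self C0]
    · have := hC1 i x hx'
      rw [Real.norm_eq_abs] at this
      have h2 := Finset.single_le_sum (f := fun i => |C1 i|) (fun i _ => abs_nonneg (C1 i))
        (Finset.mem_univ i)
      have h3 : |C1 i| ≤ ∑ i, |C1 i| := h2
      linarith [le_abs_self (C1 i), abs_nonneg C0]

lemma abs_Dr_le {φ : E3 → ℝ} {x : E3} {C : ℝ} (h : ∀ i, |pd i φ x| ≤ C) : |Dr φ x| ≤ 3 * C := by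
  unfold Dr
  refine (Finset.abs_sum_le_sum_abs _ _).trans ?_
  have h1 : ∀ i ∈ (Finset.univ : Finset (Fin 3)), |x i / ‖x‖ * pd i φ x| ≤ C := by
    intro i _
    rw [abs_mul]
    have := abs_dir_le x i
    have h2 := h i
    have h3 := abs_nonneg (pd i φ x)
    nlinarith
  refine (Finset.sum_le_sum h1).trans ?_
  simp

/-- the partial derivatives of the field -/
lemma hasPd_field {φ ζ : E3 → ℝ} (hφ : IsTest φ) (hζ : ContDiff ℝ 1 ζ) {B B1 : ℝ → ℝ}
    (hB : C1 B B1) {x : E3} (hx : x ≠ 0) (i : Fin 3) :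
    HasPd i (fun x => x i / ‖x‖ * (B ‖x‖ * (φ x * φ x * ζ x)))
      (x i / ‖x‖ * (B ‖x‖ * (φ x * φ x * pd i ζ x + (φ x * pd i φ x + pd i φ x * φ x) * ζ x)
        + B1 ‖x‖ * (x i / ‖x‖) * (φ x * φ x * ζ x))
        + (1 / ‖x‖ - x i * x i / ‖x‖ ^ 3) * (B ‖x‖ * (φ x * φ x * ζ x))) x := by
  have h1 := hasPd_dir hx i i
  rw [if_pos rfl] at h1
  have h2 := hasPd_radial hx (hB.der ‖x‖ (norm_pos_iff.2 hx)) i
  have h3 : HasPd i φ (pd i φ x) x := hasPd_of_diff (hφ.1.differentiable (by simp) x)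
  have h4 : HasPd i ζ (pd i ζ x) x := hasPd_of_diff (hζ.differentiable one_ne_zero x)
  exact h1.mul (h2.mul ((h3.mul h3).mul h4))

theorem dte : T_dtest := by
  intro φ hφ B B1 ζ C hB hb hζ
  obtain ⟨Cφ, R, hCφ, hR, hφb, hφb1, hφz, hφz1⟩ := test_bound1 hφ
  obtain ⟨Cζ, hCζ, hζb⟩ := c1_bound hζ R
  have hφ1 : ContDiff ℝ 1 φ := hφ.1.of_le (by exact_mod_cast le_top)
  have hC : 0 ≤ C := (abs_nonneg _).trans (hb 1 one_pos).1
  -- the two parts of the divergence
  set F : E3 → ℝ := fun x => ((B1 ‖x‖ + 2 * B ‖x‖ / ‖x‖) * φ x ^ 2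
      + 2 * B ‖x‖ * (φ x * ∑ i, x i / ‖x‖ * pd i φ x)) * ζ x with hF
  set H : E3 → ℝ := fun x => B ‖x‖ * φ x ^ 2 * ∑ i, x i / ‖x‖ * pd i ζ x with hH
  have cB : ∀ x : E3, x ≠ 0 → ContinuousAt (fun x : E3 => B ‖x‖) x := fun x hx =>
    continuousAt_norm_comp (contB_of_C1 hB) hx
  have cB1 : ∀ x : E3, x ≠ 0 → ContinuousAt (fun x : E3 => B1 ‖x‖) x := fun x hx =>
    continuousAt_norm_comp hB.cont hx
  have cn : ∀ x : E3, x ≠ 0 → ContinuousAt (fun x : E3 => (‖x‖ : ℝ)) x := fun x _ =>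
    continuous_norm.continuousAt
  have cφ : ∀ x, ContinuousAt φ x := fun x => hφ.1.continuous.continuousAt
  have cζ : ∀ x, ContinuousAt ζ x := fun x => hζ.continuous.continuousAt
  have hFi : Integrable F := by
    refine integrable_of_inv (C := ((C * (1 + R) + 2 * C) * Cφ ^ 2 +
      2 * C * (Cφ * (3 * Cφ)) * R) * Cζ) (R := R) ?_ ?_ ?_
    · intro x hx
      have c1 := cB x hx
      have c2 := cB1 x hx
      have c3 := continuousAt_Dr hφ1 hx
      have c4 := norm_ne_zero_iff.2 hx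
      exact (((c2.add ((continuousAt_const.mul c1).div (cn x hx) c4)).mul ((cφ x).pow 2)).add
        ((continuousAt_const.mul c1).mul ((cφ x).mul c3))).mul (cζ x)
    · intro x hx
      have hx' : 0 < ‖x‖ := norm_pos_iff.2 hx
      by_cases hxR : R ≤ ‖x‖
      · have : F x = 0 := by
          simp only [hF]
          rw [hφz x hxR]
          simp
        rw [this, abs_zero]
        positivity
      · have hxR : ‖x‖ ≤ R := (not_le.1 hxR).le
        obtain ⟨b0, b1⟩ := hb ‖x‖ hx'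
        have d1 : |Dr φ x| ≤ 3 * Cφ := abs_Dr_le fun i => hφb1 i x
        have e1 : |B1 ‖x‖ + 2 * B ‖x‖ / ‖x‖| ≤ (C * (1 + R) + 2 * C) / ‖x‖ := by
          calc |B1 ‖x‖ + 2 * B ‖x‖ / ‖x‖| ≤ |B1 ‖x‖| + |2 * B ‖x‖ / ‖x‖| := abs_add_le _ _
            _ ≤ C * (1 / ‖x‖ + 1) + 2 * C / ‖x‖ := by
                rw [abs_div, abs_norm, abs_mul, abs_two]
                gcongr
            _ = (C * (1 + ‖x‖) + 2 * C) / ‖x‖ := by
                field_simp
            _ ≤ _ := by gcongr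
        have e2 : |2 * B ‖x‖ * (φ x * ∑ i, x i / ‖x‖ * pd i φ x)| ≤
            (2 * C * (Cφ * (3 * Cφ)) * R) / ‖x‖ := by
          rw [le_div_iff₀ hx', abs_mul, abs_mul, abs_mul, abs_two]
          change 2 * |B ‖x‖| * (|φ x| * |Dr φ x|) * ‖x‖ ≤ _
          gcongr
          exact hφb x
        have e3 : |φ x ^ 2| ≤ Cφ ^ 2 := by
          rw [abs_pow]
          gcongr
          exact hφb x
        simp only [hF]
        rw [abs_mul]
        calc |(B1 ‖x‖ + 2 * B ‖x‖ / ‖x‖) * φ x ^ 2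
              + 2 * B ‖x‖ * (φ x * ∑ i, x i / ‖x‖ * pd i φ x)| * |ζ x|
            ≤ ((C * (1 + R) + 2 * C) / ‖x‖ * Cφ ^ 2 +
              (2 * C * (Cφ * (3 * Cφ)) * R) / ‖x‖) * Cζ := by
              gcongr
              · refine (abs_add_le _ _).trans ?_
                rw [abs_mul]
                gcongr
              · exact (hζb x hxR).1
          _ = _ := by ring
    · intro x hx
      simp only [hF]
      rw [hφz x hx]
      simp
  have hHi : Integrable H := by
    refine integrable_of_inv (C := C * Cφ ^ 2 * (3 * Cζ) * R) (R := R) ?_ ?_ ?_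
    · intro x hx
      exact ((cB x hx).mul ((cφ x).pow 2)).mul (continuousAt_Dr hζ hx)
    · intro x hx
      have hx' : 0 < ‖x‖ := norm_pos_iff.2 hx
      by_cases hxR : R ≤ ‖x‖
      · have : H x = 0 := by
          simp only [hH]
          rw [hφz x hxR]
          simp
        rw [this, abs_zero]
        positivity
      · have hxR : ‖x‖ ≤ R := (not_le.1 hxR).le
        obtain ⟨b0, b1⟩ := hb ‖x‖ hx'
        have d1 : |Dr ζ x| ≤ 3 * Cζ := abs_Dr_le (hζb x hxR).2
        rw [le_div_iff₀ hx']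
        simp only [hH]
        rw [abs_mul, abs_mul, abs_pow]
        change |B ‖x‖| * |φ x| ^ 2 * |Dr ζ x| * ‖x‖ ≤ _
        gcongr
        exact hφb x
    · intro x hx
      simp only [hH]
      rw [hφz x hx]
      simp
  -- the components of the field
  have hXi : ∀ i, Integrable (fun x => pd i (fun x : E3 => x i / ‖x‖ *
      (B ‖x‖ * (φ x * φ x * ζ x))) x) := by
    intro i
    have hae : (fun x => pd i (fun x : E3 => x i / ‖x‖ * (B ‖x‖ * (φ x * φ x * ζ x))) x) =ᵐ[volume]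
        (fun x => x i / ‖x‖ * (B ‖x‖ * (φ x * φ x * pd i ζ x +
          (φ x * pd i φ x + pd i φ x * φ x) * ζ x)
        + B1 ‖x‖ * (x i / ‖x‖) * (φ x * φ x * ζ x))
        + (1 / ‖x‖ - x i * x i / ‖x‖ ^ 3) * (B ‖x‖ * (φ x * φ x * ζ x))) := by
      filter_upwards [ae_ne_zero] with x hx
      exact (hasPd_field hφ hζ hB hx i).2
    refine Integrable.congr ?_ hae.symm
    refine integrable_of_inv (C := C * (Cφ * Cφ * Cζ + (Cφ * Cφ + Cφ * Cφ) * Cζ) * R
      + C * (1 + R) * (Cφ * Cφ * Cζ) + 2 * (C * (Cφ * Cφ * Cζ))) (R := R) ?_ ?_ ?_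
    · intro x hx
      have c1 := cB x hx
      have c2 := cB1 x hx
      have c3 := continuousAt_dir hx i
      have c4 := norm_ne_zero_iff.2 hx
      have c5 : ContinuousAt (fun x : E3 => x i) x :=
        ((EuclideanSpace.proj i : E3 →L[ℝ] ℝ).continuous).continuousAt
      have c6 := (continuous_pd hζ i).continuousAt (x := x)
      have c7 := (continuous_pd hφ1 i).continuousAt (x := x)
      have c8 := cn x hx
      refine ((c3.mul ((c1.mul ((((cφ x).mul (cφ x)).mul c6).add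
        ((((cφ x).mul c7).add (c7.mul (cφ x))).mul (cζ x)))).add
        ((c2.mul c3).mul (((cφ x).mul (cφ x)).mul (cζ x)))))).add
        (((continuousAt_const.div c8 c4).sub ((c5.mul c5).div (c8.pow 3) (pow_ne_zero 3 c4))).mul
        (c1.mul (((cφ x).mul (cφ x)).mul (cζ x))))
    · intro x hx
      have hx' : 0 < ‖x‖ := norm_pos_iff.2 hx
      by_cases hxR : R ≤ ‖x‖
      · rw [hφz x hxR, hφz1 i x hxR]
        simp only [zero_mul, mul_zero, add_zero, abs_zero]
        positivity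
      · have hxR : ‖x‖ ≤ R := (not_le.1 hxR).le
        obtain ⟨b0, b1⟩ := hb ‖x‖ hx'
        have z0 := (hζb x hxR).1
        have z1 := (hζb x hxR).2 i
        have p0 := hφb x
        have p1 := hφb1 i x
        have d0 := abs_dir_le x i
        have f1 : |1 / ‖x‖ - x i * x i / ‖x‖ ^ 3| ≤ 2 / ‖x‖ := by
          have g1 : 1 / ‖x‖ - x i * x i / ‖x‖ ^ 3 = (1 - (x i / ‖x‖) ^ 2) / ‖x‖ := by
            field_simp
          rw [g1, abs_div, abs_norm]
          gcongr
          have g2 : (x i / ‖x‖) ^ 2 ≤ 1 := by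
            rw [← sq_abs]
            exact pow_le_one₀ (abs_nonneg _) d0
          rw [abs_le]
          constructor <;> nlinarith [sq_nonneg (x i / ‖x‖)]
        have f2 : |φ x * φ x * ζ x| ≤ Cφ * Cφ * Cζ := by
          rw [abs_mul, abs_mul]
          gcongr
        have f3 : |φ x * φ x * pd i ζ x + (φ x * pd i φ x + pd i φ x * φ x) * ζ x| ≤
            Cφ * Cφ * Cζ + (Cφ * Cφ + Cφ * Cφ) * Cζ := by
          refine (abs_add_le _ _).trans ?_
          rw [abs_mul, abs_mul, abs_mul]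
          gcongr
          refine (abs_add_le _ _).trans ?_
          rw [abs_mul, abs_mul]
          gcongr
        have f4 : |B ‖x‖ * (φ x * φ x * pd i ζ x +
            (φ x * pd i φ x + pd i φ x * φ x) * ζ x)
            + B1 ‖x‖ * (x i / ‖x‖) * (φ x * φ x * ζ x)| ≤
            C * (Cφ * Cφ * Cζ + (Cφ * Cφ + Cφ * Cφ) * Cζ) +
            C * (1 / ‖x‖ + 1) * 1 * (Cφ * Cφ * Cζ) := by
          refine (abs_add_le _ _).trans ?_
          rw [abs_mul, abs_mul, abs_mul]
          gcongr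
        calc _ ≤ 1 * (C * (Cφ * Cφ * Cζ + (Cφ * Cφ + Cφ * Cφ) * Cζ) +
            C * (1 / ‖x‖ + 1) * 1 * (Cφ * Cφ * Cζ)) + 2 / ‖x‖ * (C * (Cφ * Cφ * Cζ)) := by
              refine (abs_add_le _ _).trans ?_
              rw [abs_mul, abs_mul, abs_mul (B ‖x‖)]
              gcongr
          _ = (C * (Cφ * Cφ * Cζ + (Cφ * Cφ + Cφ * Cφ) * Cζ) * ‖x‖
            + C * (1 + ‖x‖) * (Cφ * Cφ * Cζ) + 2 * (C * (Cφ * Cφ * Cζ))) / ‖x‖ := by
              field_simp
          _ ≤ _ := by gcongr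
    · intro x hx
      rw [hφz x hx, hφz1 i x hx]
      simp
  have hzero : ∀ i, ∫ x, pd i (fun x : E3 => x i / ‖x‖ * (B ‖x‖ * (φ x * φ x * ζ x))) x = 0 := by
    intro i
    refine integral_pd_eq_zero (C := |B 0| * (Cφ * Cφ * Cζ) + C * (Cφ * Cφ * Cζ)) (R := R) i
      (fun x hx => (hasPd_field hφ hζ hB hx i).1) ?_ ?_ (hXi i)
    · intro x
      by_cases hxR : R ≤ ‖x‖
      · rw [hφz x hxR]
        simp only [zero_mul, mul_zero, abs_zero]
        positivity
      · have hxR : ‖x‖ ≤ R := (not_le.1 hxR).le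
        have z0 := (hζb x hxR).1
        have p0 := hφb x
        have d0 := abs_dir_le x i
        have f2 : |φ x * φ x * ζ x| ≤ Cφ * Cφ * Cζ := by
          rw [abs_mul, abs_mul]
          gcongr
        rw [abs_mul, abs_mul (B ‖x‖)]
        have f5 : |B ‖x‖| ≤ |B 0| + C := by
          rcases (norm_nonneg x).eq_or_lt with h | h
          · rw [← h]
            linarith
          · linarith [(hb ‖x‖ h).1, abs_nonneg (B 0)]
        calc |x i / ‖x‖| * (|B ‖x‖| * |φ x * φ x * ζ x|)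
            ≤ 1 * ((|B 0| + C) * (Cφ * Cφ * Cζ)) := by gcongr
          _ = _ := by ring
    · intro x hx
      rw [hφz x hx]
      simp
  have hsum : ∫ x, (F x + H x) = 0 := by
    have h1 : ∫ x, (F x + H x) = ∫ x, ∑ i, pd i (fun x : E3 => x i / ‖x‖ *
        (B ‖x‖ * (φ x * φ x * ζ x))) x := by
      refine integral_congr_ae ?_
      filter_upwards [ae_ne_zero] with x hx
      have hx' : 0 < ‖x‖ := norm_pos_iff.2 hx
      have h2 : ∀ i, pd i (fun x : E3 => x i / ‖x‖ * (B ‖x‖ * (φ x * φ x * ζ x))) x = _ :=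
        fun i => (hasPd_field hφ hζ hB hx i).2
      rw [Finset.sum_congr rfl fun i _ => h2 i]
      have h3 := sum_sq x
      rw [Fin.sum_univ_three] at h3
      simp only [hF, hH, Fin.sum_univ_three]
      have h4 : x 2 ^ 2 = ‖x‖ ^ 2 - x 0 ^ 2 - x 1 ^ 2 := by linarith
      field_simp
      ring_nf
      rw [h4]
      ring
    rw [h1, integral_finsetSum _ fun i _ => hXi i]
    simp [hzero]
  rw [integral_add hFi hHi] at hsum
  linarith

end Pool.Agent.H94.HN
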