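import Pool.Agent.H94.HN.DTE

/-!
Module RELT of MP_6a9259_mp: Rellich's identity for test functions.
-/

namespace Pool.Agent.H94.HN

open Pool.Agent.H99.HM Pool.Agent.H99.HN
open MeasureTheory Set Filter Topology Real
open scoped ContDiff

/-- bounded and continuous off the origin -/
structure BC (F : E3 → ℝ) : Prop where
  cont : ∀ x, x ≠ 0 → ContinuousAt F x
  bdd : ∃ K, 0 ≤ K ∧ ∀ x, x ≠ 0 → |F x| ≤ K

lemma BC.mul {F G : E3 → ℝ} (hF : BC F) (hG : BC G) : BC (fun x => F x * G x) := by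
  obtain ⟨K, hK, h1⟩ := hF.bdd
  obtain ⟨L, hL, h2⟩ := hG.bdd
  refine ⟨fun x hx => (hF.cont x hx).mul (hG.cont x hx), K * L, by positivity, fun x hx => ?_⟩
  rw [abs_mul]
  exact mul_le_mul (h1 x hx) (h2 x hx) (abs_nonneg _) hK

lemma BC.add {F G : E3 → ℝ} (hF : BC F) (hG : BC G) : BC (fun x => F x + G x) := by
  obtain ⟨K, hK, h1⟩ := hF.bdd
  obtain ⟨L, hL, h2⟩ := hG.bdd
  refine ⟨fun x hx => (hF.cont x hx).add (hG.cont x hx), K + L, by positivity, fun x hx => ?_⟩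
  exact (abs_add_le _ _).trans (add_le_add (h1 x hx) (h2 x hx))

lemma BC.sub {F G : E3 → ℝ} (hF : BC F) (hG : BC G) : BC (fun x => F x - G x) := by
  obtain ⟨K, hK, h1⟩ := hF.bdd
  obtain ⟨L, hL, h2⟩ := hG.bdd
  refine ⟨fun x hx => (hF.cont x hx).sub (hG.cont x hx), K + L, by positivity, fun x hx => ?_⟩
  exact (abs_sub _ _).trans (add_le_add (h1 x hx) (h2 x hx))

lemma BC.const (c : ℝ) : BC (fun _ => c) :=
  ⟨fun _ _ => continuousAt_const, |c|, abs_nonneg c, fun _ _ => le_rfl⟩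

lemma BC.neg {F : E3 → ℝ} (hF : BC F) : BC (fun x => -F x) := by
  obtain ⟨K, hK, h1⟩ := hF.bdd
  exact ⟨fun x hx => (hF.cont x hx).neg, K, hK, fun x hx => by rw [abs_neg]; exact h1 x hx⟩

lemma BC.sum {F : Fin 3 → E3 → ℝ} (hF : ∀ i, BC (F i)) : BC (fun x => ∑ i, F i x) := by
  simp only [Fin.sum_univ_three]
  exact ((hF 0).add (hF 1)).add (hF 2)

lemma BC.dir (i : Fin 3) : BC (fun x : E3 => x i / ‖x‖) :=
  ⟨fun _ hx => continuousAt_dir hx i, 1, zero_le_one, fun x _ => abs_dir_le x i⟩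

lemma BC.test {φ : E3 → ℝ} (hφ : IsTest φ) : BC φ := by
  obtain ⟨C, R, hC, -, hb, -⟩ := Pool.Agent.H49.HM.test_bound hφ
  exact ⟨fun x _ => hφ.1.continuous.continuousAt, C, hC.le, fun x _ => hb x⟩

/-- zero far away -/
def Far (F : E3 → ℝ) : Prop := ∃ R : ℝ, ∀ x : E3, R ≤ ‖x‖ → F x = 0

lemma Far.test {φ : E3 → ℝ} (hφ : IsTest φ) : Far φ := by
  obtain ⟨C, R, hC, -, -, hz⟩ := Pool.Agent.H49.HM.test_bound hφ
  exact ⟨R, hz⟩

lemma Far.mul_left {F : E3 → ℝ} (hF : Far F) (G : E3 → ℝ) : Far (fun x => G x * F x) := by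
  obtain ⟨R, h⟩ := hF
  exact ⟨R, fun x hx => by simp only [h x hx, mul_zero]⟩

lemma Far.mul_right {F : E3 → ℝ} (hF : Far F) (G : E3 → ℝ) : Far (fun x => F x * G x) := by
  obtain ⟨R, h⟩ := hF
  exact ⟨R, fun x hx => by simp only [h x hx, zero_mul]⟩

lemma Far.add {F G : E3 → ℝ} (hF : Far F) (hG : Far G) : Far (fun x => F x + G x) := by
  obtain ⟨R, h⟩ := hF
  obtain ⟨S, k⟩ := hG
  refine ⟨max R S, fun x hx => ?_⟩
  simp only [h x ((le_max_left R S).trans hx), k x ((le_max_right R S).trans hx), add_zero]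

lemma Far.sub {F G : E3 → ℝ} (hF : Far F) (hG : Far G) : Far (fun x => F x - G x) := by
  obtain ⟨R, h⟩ := hF
  obtain ⟨S, k⟩ := hG
  refine ⟨max R S, fun x hx => ?_⟩
  simp only [h x ((le_max_left R S).trans hx), k x ((le_max_right R S).trans hx), sub_zero]

lemma Far.sum {F : Fin 3 → E3 → ℝ} (hF : ∀ i, Far (F i)) : Far (fun x => ∑ i, F i x) := by
  simp only [Fin.sum_univ_three]
  exact ((hF 0).add (hF 1)).add (hF 2)

lemma BC.integrable {F : E3 → ℝ} (hF : BC F) (hR : Far F) : Integrable F := by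
  obtain ⟨K, hK, h1⟩ := hF.bdd
  obtain ⟨R, hR⟩ := hR
  refine integrable_of_inv (C := K * |R|) (R := R) hF.cont ?_ hR
  intro x hx
  have hx' : 0 < ‖x‖ := norm_pos_iff.2 hx
  by_cases h : R ≤ ‖x‖
  · rw [hR x h, abs_zero]
    positivity
  · rw [le_div_iff₀ hx']
    have h2 : ‖x‖ ≤ |R| := (not_le.1 h).le.trans (le_abs_self R)
    exact mul_le_mul (h1 x hx) h2 (norm_nonneg x) hK

lemma BC.integral_pd {X Y : E3 → ℝ} (i : Fin 3) (hX : BC X) (hR : Far X) (h0 : X 0 = 0)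
    (hd : ∀ x, x ≠ 0 → HasPd i X (Y x) x) (hY : BC Y) (hYR : Far Y) : ∫ x, Y x = 0 := by
  obtain ⟨K, hK, h1⟩ := hX.bdd
  obtain ⟨R, hR⟩ := hR
  have hae : (fun x => pd i X x) =ᵐ[volume] Y := by
    filter_upwards [ae_ne_zero] with x hx
    exact (hd x hx).2
  rw [← integral_congr_ae hae]
  refine integral_pd_eq_zero (C := K) (R := R) i (fun x hx => (hd x hx).1) ?_ hR
    ((hY.integrable hYR).congr hae.symm)
  intro x
  by_cases hx : x = 0
  · rw [hx, h0, abs_zero]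
    exact hK
  · exact h1 x hx

lemma pd_comm {φ : E3 → ℝ} (hφ : IsTest φ) (i j : Fin 3) (x : E3) :
    pd i (pd j φ) x = pd j (pd i φ) x := by
  have hφ2 : ContDiff ℝ 2 φ := contDiff_infty.1 hφ.1 2
  have hd : Differentiable ℝ (fderiv ℝ φ) :=
    (hφ2.fderiv_right (m := 1) (by norm_num)).differentiable one_ne_zero
  have h : ∀ k l : Fin 3, pd k (pd l φ) x =
      fderiv ℝ (fderiv ℝ φ) x (EuclideanSpace.single k 1) (EuclideanSpace.single l 1) := by
    intro k l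
    have h1 : HasFDerivAt (fun y => fderiv ℝ φ y (EuclideanSpace.single l (1 : ℝ)))
        ((fderiv ℝ (fderiv ℝ φ) x).flip (EuclideanSpace.single l (1 : ℝ))) x := by
      have := (hd x).hasFDerivAt.clm_apply (hasFDerivAt_const
        (EuclideanSpace.single l (1 : ℝ)) x)
      simpa using this
    have h2 : fderiv ℝ (pd l φ) x = _ := h1.fderiv
    rw [pd, h2]
    rfl
  have hs : IsSymmSndFDerivAt ℝ φ x := by
    refine ContDiffAt.isSymmSndFDerivAt (n := 2) hφ2.contDiffAt ?_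
    simp
  rw [h, h]
  exact hs _ _

/-- derivative of the radial field -/
lemma hasPd_X {B B1 : ℝ → ℝ} (hB : C1 B B1) {x : E3} (hx : x ≠ 0) (i j : Fin 3) :
    HasPd j (fun x => B ‖x‖ * (x i / ‖x‖))
      (B ‖x‖ / ‖x‖ * ((if j = i then 1 else 0) - x j / ‖x‖ * (x i / ‖x‖))
        + B1 ‖x‖ * (x j / ‖x‖) * (x i / ‖x‖)) x := by
  have hx' : 0 < ‖x‖ := norm_pos_iff.2 hx
  have h1 := (hasPd_radial hx (hB.der ‖x‖ hx') j).mul (hasPd_dir hx j i)
  refine ⟨h1.1, h1.2.trans ?_⟩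
  field_simp

theorem relt : T_relt := by
  intro φ hφ B B1 C hB hb
  have hpd : ∀ i, IsTest (pd i φ) := fun i => Pool.Agent.H49.HM.contDiff_pd hφ i
  have hpd2 : ∀ i j, IsTest (pd j (pd i φ)) := fun i j =>
    Pool.Agent.H49.HM.contDiff_pd (hpd i) j
  have hC : 0 ≤ C := (abs_nonneg _).trans (hb 1 one_pos).1
  have bB : BC (fun x : E3 => B ‖x‖) :=
    ⟨fun x hx => continuousAt_norm_comp (contB_of_C1 hB) hx, C, hC,
      fun x hx => (hb _ (norm_pos_iff.2 hx)).1⟩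
  have bB1 : BC (fun x : E3 => B1 ‖x‖) :=
    ⟨fun x hx => continuousAt_norm_comp hB.cont hx, C, hC,
      fun x hx => (hb _ (norm_pos_iff.2 hx)).2.2⟩
  have bBr : BC (fun x : E3 => B ‖x‖ / ‖x‖) := by
    refine ⟨fun x hx => (continuousAt_norm_comp (contB_of_C1 hB) hx).div
      continuous_norm.continuousAt (norm_ne_zero_iff.2 hx), C, hC, fun x hx => ?_⟩
    have hx' : 0 < ‖x‖ := norm_pos_iff.2 hx
    rw [abs_div, abs_norm, div_le_iff₀ hx']
    exact (hb _ hx').2.1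
  have bn : ∀ i, BC (fun x : E3 => x i / ‖x‖) := fun i => BC.dir i
  have bp : ∀ i, BC (fun x => pd i φ x) := fun i => BC.test (hpd i)
  have bq : ∀ i j, BC (fun x => pd j (pd i φ) x) := fun i j => BC.test (hpd2 i j)
  have fp : ∀ i, Far (fun x => pd i φ x) := fun i => Far.test (hpd i)
  have fq : ∀ i j, Far (fun x => pd j (pd i φ) x) := fun i j => Far.test (hpd2 i j)
  have bX : ∀ i, BC (fun x : E3 => B ‖x‖ * (x i / ‖x‖)) := fun i => bB.mul (bn i)
  have bdX : ∀ i j, BC (fun x : E3 => B ‖x‖ / ‖x‖ * ((if j = i then 1 else 0)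
      - x j / ‖x‖ * (x i / ‖x‖)) + B1 ‖x‖ * (x j / ‖x‖) * (x i / ‖x‖)) := fun i j =>
    (bBr.mul ((BC.const _).sub ((bn j).mul (bn i)))).add ((bB1.mul (bn j)).mul (bn i))
  -- the field
  set Y : Fin 3 → E3 → ℝ := fun j x =>
    pd j φ x * ∑ i, B ‖x‖ * (x i / ‖x‖) * pd i φ x
      - 1 / 2 * (B ‖x‖ * (x j / ‖x‖) * ∑ i, pd i φ x * pd i φ x) with hY
  set Z : Fin 3 → E3 → ℝ := fun j x =>
    (pd j φ x * (∑ i, (B ‖x‖ * (x i / ‖x‖) * pd j (pd i φ) x
        + (B ‖x‖ / ‖x‖ * ((if j = i then 1 else 0) - x j / ‖x‖ * (x i / ‖x‖))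
          + B1 ‖x‖ * (x j / ‖x‖) * (x i / ‖x‖)) * pd i φ x))
      + pd j (pd j φ) x * ∑ i, B ‖x‖ * (x i / ‖x‖) * pd i φ x)
      - 1 / 2 * (B ‖x‖ * (x j / ‖x‖) *
          (∑ i, (pd i φ x * pd j (pd i φ) x + pd j (pd i φ) x * pd i φ x))
        + (B ‖x‖ / ‖x‖ * ((if j = j then 1 else 0) - x j / ‖x‖ * (x j / ‖x‖))
          + B1 ‖x‖ * (x j / ‖x‖) * (x j / ‖x‖)) * ∑ i, pd i φ x * pd i φ x) with hZ
  have hYZ : ∀ j x, x ≠ 0 → HasPd j (Y j) (Z j x) x := by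
    intro j x hx
    have hp : ∀ i, HasPd j (fun x => pd i φ x) (pd j (pd i φ) x) x := fun i =>
      hasPd_of_diff ((hpd i).1.differentiable (by simp) x)
    have h1 := HasPd.sum Finset.univ fun i (_ : i ∈ Finset.univ) =>
      (hasPd_X hB hx i j).mul (hp i)
    have h2 := HasPd.sum Finset.univ fun i (_ : i ∈ Finset.univ) => (hp i).mul (hp i)
    exact ((hp j).mul h1).sub ((((hasPd_X hB hx j j).mul h2)).const_mul (1 / 2))
  have bY : ∀ j, BC (Y j) := fun j =>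
    ((bp j).mul (BC.sum fun i => (bX i).mul (bp i))).sub
      ((BC.const _).mul ((bX j).mul (BC.sum fun i => (bp i).mul (bp i))))
  have bZ : ∀ j, BC (Z j) := fun j =>
    (((bp j).mul (BC.sum fun i => ((bX i).mul (bq i j)).add ((bdX i j).mul (bp i)))).add
      ((bq j j).mul (BC.sum fun i => (bX i).mul (bp i)))).sub
      ((BC.const _).mul (((bX j).mul (BC.sum fun i => ((bp i).mul (bq i j)).add
        ((bq i j).mul (bp i)))).add ((bdX j j).mul (BC.sum fun i => (bp i).mul (bp i)))))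
  have fY : ∀ j, Far (Y j) := fun j =>
    ((fp j).mul_right _).sub (((Far.sum fun i => (fp i).mul_right _).mul_left _).mul_left _)
  have fZ : ∀ j, Far (Z j) := fun j =>
    (((fp j).mul_right _).add ((fq j j).mul_right _)).sub
      (((((Far.sum fun i => ((fp i).mul_right _).add ((fp i).mul_left _))).mul_left _).add
        ((Far.sum fun i => (fp i).mul_right _).mul_left _)).mul_left _)
  have hY0 : ∀ j, Y j 0 = 0 := by
    intro j
    simp [hY]
  have hZ0 : ∀ j, ∫ x, Z j x = 0 := fun j =>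
    BC.integral_pd j (bY j) (fY j) (hY0 j) (hYZ j) (bZ j) (fZ j)
  -- the three integrals
  have i1 : Integrable (fun x : E3 => B ‖x‖ * (-lap φ x * ∑ i, x i / ‖x‖ * pd i φ x)) := by
    refine BC.integrable ?_ ?_
    · exact bB.mul (((BC.sum fun i => bq i i).neg).mul (BC.sum fun i => (bn i).mul (bp i)))
    · exact ((Far.sum fun i => (fp i).mul_left _).mul_left _).mul_left _
  have i2 : Integrable (fun x : E3 => (B1 ‖x‖ / 2 - B ‖x‖ / ‖x‖) *
      (∑ i, x i / ‖x‖ * pd i φ x) ^ 2) := by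
    have h1 : (fun x : E3 => (B1 ‖x‖ / 2 - B ‖x‖ / ‖x‖) * (∑ i, x i / ‖x‖ * pd i φ x) ^ 2) =
        fun x => (B1 ‖x‖ * (1 / 2) - B ‖x‖ / ‖x‖) * ((∑ i, x i / ‖x‖ * pd i φ x) *
          ∑ i, x i / ‖x‖ * pd i φ x) := by
      funext x
      ring
    rw [h1]
    refine BC.integrable ?_ ?_
    · exact ((bB1.mul (BC.const _)).sub bBr).mul ((BC.sum fun i => (bn i).mul (bp i)).mul
        (BC.sum fun i => (bn i).mul (bp i)))
    · exact (((Far.sum fun i => (fp i).mul_left _)).mul_left _).mul_left _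
  have i3 : Integrable (fun x : E3 => B1 ‖x‖ / 2 * ((∑ i, pd i φ x ^ 2) -
      (∑ i, x i / ‖x‖ * pd i φ x) ^ 2)) := by
    have h1 : (fun x : E3 => B1 ‖x‖ / 2 * ((∑ i, pd i φ x ^ 2) -
        (∑ i, x i / ‖x‖ * pd i φ x) ^ 2)) =
        fun x => (B1 ‖x‖ * (1 / 2)) * ((∑ i, pd i φ x * pd i φ x) -
          (∑ i, x i / ‖x‖ * pd i φ x) * ∑ i, x i / ‖x‖ * pd i φ x) := by
      funext x
      simp only [sq]
      ring
    rw [h1]
    refine BC.integrable ?_ ?_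
    · exact (bB1.mul (BC.const _)).mul ((BC.sum fun i => (bp i).mul (bp i)).sub
        ((BC.sum fun i => (bn i).mul (bp i)).mul (BC.sum fun i => (bn i).mul (bp i))))
    · exact ((Far.sum fun i => (fp i).mul_left _).sub
        ((Far.sum fun i => (fp i).mul_left _).mul_left _)).mul_left _
  have hpt : ∀ x : E3, x ≠ 0 → ∑ j, Z j x =
      (B1 ‖x‖ / 2 - B ‖x‖ / ‖x‖) * (∑ i, x i / ‖x‖ * pd i φ x) ^ 2
      - B1 ‖x‖ / 2 * ((∑ i, pd i φ x ^ 2) - (∑ i, x i / ‖x‖ * pd i φ x) ^ 2)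
      - B ‖x‖ * (-lap φ x * ∑ i, x i / ‖x‖ * pd i φ x) := by
    intro x hx
    have hn := sum_dir_sq hx
    have c10 := pd_comm hφ 1 0 x
    have c20 := pd_comm hφ 2 0 x
    have c21 := pd_comm hφ 2 1 x
    simp only [hZ, lap, Fin.sum_univ_three]
    rw [Fin.sum_univ_three] at hn
    simp only [c10, c20, c21]
    have e01 : ((0 : Fin 3) = 1) = False := by simp
    have e02 : ((0 : Fin 3) = 2) = False := by simp
    have e10 : ((1 : Fin 3) = 0) = False := by simp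
    have e12 : ((1 : Fin 3) = 2) = False := by simp
    have e20 : ((2 : Fin 3) = 0) = False := by simp
    have e21 : ((2 : Fin 3) = 1) = False := by simp
    simp only [e01, e02, e10, e12, e20, e21, if_true, if_false]
    generalize x 0 / ‖x‖ = n0 at *
    generalize x 1 / ‖x‖ = n1 at *
    generalize x 2 / ‖x‖ = n2 at *
    generalize B ‖x‖ / ‖x‖ = b at *
    generalize B ‖x‖ = β at *
    generalize B1 ‖x‖ = β1 at *
    generalize pd 0 φ x = p0 at *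
    generalize pd 1 φ x = p1 at *
    generalize pd 2 φ x = p2 at *
    linear_combination (-(1 / 2) * (p0 ^ 2 + p1 ^ 2 + p2 ^ 2) * (β1 - b)) * hn
  have hsum : ∫ x, ∑ j, Z j x = 0 := by
    rw [integral_finsetSum _ fun j _ => (bZ j).integrable (fZ j)]
    simp [hZ0]
  have hae : (fun x => ∑ j, Z j x) =ᵐ[volume] fun x : E3 =>
      ((B1 ‖x‖ / 2 - B ‖x‖ / ‖x‖) * (∑ i, x i / ‖x‖ * pd i φ x) ^ 2
      - B1 ‖x‖ / 2 * ((∑ i, pd i φ x ^ 2) - (∑ i, x i / ‖x‖ * pd i φ x) ^ 2))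
      - B ‖x‖ * (-lap φ x * ∑ i, x i / ‖x‖ * pd i φ x) := by
    filter_upwards [ae_ne_zero] with x hx
    exact hpt x hx
  have i23 : Integrable (fun x : E3 =>
      (B1 ‖x‖ / 2 - B ‖x‖ / ‖x‖) * (∑ i, x i / ‖x‖ * pd i φ x) ^ 2
      - B1 ‖x‖ / 2 * ((∑ i, pd i φ x ^ 2) - (∑ i, x i / ‖x‖ * pd i φ x) ^ 2)) := i2.sub i3
  rw [integral_congr_ae hae, integral_sub i23 i1, integral_sub i2 i3] at hsum
  linarith

end Pool.Agent.H94.HN
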