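import Pool.Agent.H99.HN.Targets

/-!
Module SPHC of MP_6a9259_mp: spherical coordinates.
-/

namespace Pool.Agent.H94.HN

open Pool.Agent.H99.HM Pool.Agent.H99.HN
open MeasureTheory Set Filter Topology Real
open scoped ContDiff

/-- the point with coordinates `x, y, w` -/
noncomputable def P3 (x y w : ℝ) : E3 := WithLp.toLp 2 ![x, y, w]

lemma continuous_P3 {X : Type*} [TopologicalSpace X] {a b c : X → ℝ} (ha : Continuous a)
    (hb : Continuous b) (hc : Continuous c) : Continuous fun x => P3 (a x) (b x) (c x) := by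
  unfold P3
  refine (PiLp.continuous_toLp 2 _).comp ?_
  refine continuous_pi fun i => ?_
  fin_cases i
  · exact ha
  · exact hb
  · exact hc

lemma norm_P3 (x y w : ℝ) : ‖P3 x y w‖ ^ 2 = x ^ 2 + y ^ 2 + w ^ 2 := by
  rw [EuclideanSpace.norm_sq_eq]
  simp [P3, Fin.sum_univ_three]

lemma cart {F : E3 → ℝ} (hF : Continuous F) (hc : HasCompactSupport F) :
    ∫ x, F x = ∫ w : ℝ, ∫ q : ℝ × ℝ, F (P3 q.1 q.2 w) := by
  have hFi : Integrable F := hF.integrable_of_hasCompactSupport hc
  have m1 := PiLp.volume_preserving_toLp (Fin 3)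
  have e1 : MeasurableEmbedding (@WithLp.toLp 2 (Fin 3 → ℝ)) :=
    (MeasurableEquiv.toLp 2 (Fin 3 → ℝ)).measurableEmbedding
  have h1 : ∫ v : Fin 3 → ℝ, F (WithLp.toLp 2 v) = ∫ x, F x := m1.integral_comp e1 F
  have i1 : Integrable (fun v : Fin 3 → ℝ => F (WithLp.toLp 2 v)) :=
    (m1.integrable_comp_emb e1).2 hFi
  have m2 := (volume_preserving_piFinSuccAbove (fun _ : Fin 3 => ℝ) 2).symm
  have h2 := m2.integral_comp' (fun v : Fin 3 → ℝ => F (WithLp.toLp 2 v))
  have i2 := (m2.integrable_comp_emb (MeasurableEquiv.measurableEmbedding _)).2 i1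
  rw [← h1, ← h2]
  have h3 := integral_prod _ i2
  refine h3.trans ?_
  refine integral_congr_ae (Eventually.of_forall fun w => ?_)
  have m3 := (volume_preserving_finTwoArrow ℝ).symm
  have h4 := m3.integral_comp' (fun u : Fin 2 → ℝ => F (WithLp.toLp 2
    ((MeasurableEquiv.piFinSuccAbove (fun _ : Fin 3 => ℝ) 2).symm (w, u))))
  refine Eq.trans h4.symm ?_
  refine integral_congr_ae (Eventually.of_forall fun q => ?_)
  change F _ = F _
  congr 1
  unfold P3
  congr 1
  ext i
  fin_cases i <;> rfl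

/-- integrability on half strips -/
lemma intOn_strip {k : ℝ × ℝ → ℝ} (hk : Measurable k) {M R a b : ℝ} (hb : ∀ p, |k p| ≤ M)
    (h0 : ∀ p : ℝ × ℝ, R < p.1 → k p = 0) :
    IntegrableOn k (Ioi 0 ×ˢ Ioo a b) (volume.prod volume) := by
  have h1 : IntegrableOn k (Ioc 0 R ×ˢ Ioo a b) (volume.prod volume) := by
    refine Measure.integrableOn_of_bounded (M := M) ?_ hk.aestronglyMeasurable ?_
    · rw [Measure.prod_prod]
      exact ENNReal.mul_ne_top (by simp) (by simp)
    · exact Eventually.of_forall fun p => by rw [Real.norm_eq_abs]; exact hb p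
  refine h1.of_forall_sdiff_eq_zero (measurableSet_Ioi.prod measurableSet_Ioo) ?_
  rintro ⟨r, t⟩ ⟨⟨hr, ht⟩, h⟩
  refine h0 _ ?_
  by_contra h2
  exact h ⟨⟨hr, not_lt.1 h2⟩, ht⟩

theorem sphc : T_sphc := by
  intro F hF hc
  -- bounds
  obtain ⟨M, hM⟩ := hc.exists_bound_of_continuous hF
  obtain ⟨R, hR⟩ := hc.isCompact.isBounded.subset_ball (0 : E3)
  have hM' : ∀ x, |F x| ≤ M := fun x => by
    have := hM x
    rwa [Real.norm_eq_abs] at this
  have hM0 : 0 ≤ M := (abs_nonneg _).trans (hM' 0)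
  obtain ⟨S, hS0, hF0⟩ : ∃ S : ℝ, 0 ≤ S ∧ ∀ x : E3, S ≤ ‖x‖ → F x = 0 := by
    refine ⟨|R|, abs_nonneg R, fun x hx => ?_⟩
    by_contra h
    have h1 := hR (subset_tsupport _ h)
    rw [Metric.mem_ball, dist_zero_right] at h1
    linarith [le_abs_self R]
  have hP : ∀ ρ φ w : ℝ, ‖P3 (ρ * cos φ) (ρ * sin φ) w‖ ^ 2 = ρ ^ 2 + w ^ 2 := by
    intro ρ φ w
    rw [norm_P3]
    have := sin_sq_add_cos_sq φ
    linear_combination ρ ^ 2 * this
  have hg0 : ∀ ρ φ w : ℝ, S ^ 2 ≤ ρ ^ 2 + w ^ 2 → F (P3 (ρ * cos φ) (ρ * sin φ) w) = 0 := by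
    intro ρ φ w h
    refine hF0 _ ?_
    rw [← hP ρ φ w] at h
    exact le_of_sq_le_sq h (norm_nonneg _)
  -- the angular mean
  set m : ℝ × ℝ → ℝ := fun p => ∫ φ in (-π)..π, F (P3 (p.1 * cos φ) (p.1 * sin φ) p.2) with hm
  have hmc : Continuous m := by
    refine intervalIntegral.continuous_parametric_intervalIntegral_of_continuous' ?_ _ _
    refine hF.comp (continuous_P3 ?_ ?_ ?_) <;> fun_prop
  have hm0 : ∀ p : ℝ × ℝ, S ^ 2 ≤ p.1 ^ 2 + p.2 ^ 2 → m p = 0 := by
    intro p hp
    simp only [hm]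
    simp [hg0 _ _ _ hp]
  have hmb : ∀ p, |m p| ≤ M * (2 * π) := by
    intro p
    have h1 := intervalIntegral.norm_integral_le_of_norm_le_const
      (f := fun φ => F (P3 (p.1 * cos φ) (p.1 * sin φ) p.2)) (a := -π) (b := π) (C := M)
      (fun φ _ => hM _)
    rw [Real.norm_eq_abs] at h1
    refine h1.trans (le_of_eq ?_)
    rw [abs_of_nonneg (by linarith [pi_pos])]
    ring
  -- step A
  have hA : ∀ w : ℝ, ∫ q : ℝ × ℝ, F (P3 q.1 q.2 w) = ∫ ρ in Ioi (0 : ℝ), ρ * m (ρ, w) := by
    intro w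
    rw [← integral_comp_polarCoord_symm]
    have h1 : IntegrableOn (fun p : ℝ × ℝ => p.1 • F (P3 (polarCoord.symm p).1
        (polarCoord.symm p).2 w)) (Ioi 0 ×ˢ Ioo (-π) π) (volume.prod volume) := by
      have h2 : (fun p : ℝ × ℝ => p.1 • F (P3 (polarCoord.symm p).1
        (polarCoord.symm p).2 w)) = fun p : ℝ × ℝ => p.1 * F (P3 (p.1 * cos p.2)
          (p.1 * sin p.2) w) := rfl
      rw [h2]
      refine intOn_strip (M := S * M) (R := S) ?_ ?_ ?_
      · refine Continuous.measurable ?_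
        refine continuous_fst.mul (hF.comp (continuous_P3 ?_ ?_ ?_)) <;> fun_prop
      · intro p
        by_cases h : S ≤ |p.1|
        · rw [hg0 _ _ _ ?_, mul_zero, abs_zero]
          · positivity
          · have := pow_le_pow_left₀ hS0 h 2
            rw [sq_abs] at this
            nlinarith [sq_nonneg w]
        · rw [abs_mul]
          exact mul_le_mul (not_le.1 h).le (hM' _) (abs_nonneg _) hS0
      · intro p hp
        rw [hg0 _ _ _ ?_, mul_zero]
        nlinarith [sq_nonneg w]
    rw [polarCoord_target]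
    refine (setIntegral_prod _ h1).trans ?_
    refine setIntegral_congr_fun measurableSet_Ioi fun ρ hρ => ?_
    change ∫ φ in Ioo (-π) π, ρ * F (P3 (ρ * cos φ) (ρ * sin φ) w) = _
    rw [integral_const_mul]
    simp only [hm]
    rw [intervalIntegral.integral_of_le (by linarith [pi_pos]), integral_Ioc_eq_integral_Ioo]
  -- step B
  set H : ℝ × ℝ → ℝ := (Ioi (0 : ℝ) ×ˢ (univ : Set ℝ)).indicator fun p => p.1 * m p with hH
  have hHm : Measurable H :=
    (continuous_fst.mul hmc).measurable.indicator (measurableSet_Ioi.prod MeasurableSet.univ)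
  have hHi : Integrable H (volume.prod volume) := by
    refine Integrable.indicator ?_ (measurableSet_Ioi.prod MeasurableSet.univ)
    refine Continuous.integrable_of_hasCompactSupport (continuous_fst.mul hmc) ?_
    refine HasCompactSupport.of_support_subset_isCompact
      ((isCompact_Icc (a := -S) (b := S)).prod (isCompact_Icc (a := -S) (b := S))) ?_
    intro p hp
    have h1 : ¬ S ^ 2 ≤ p.1 ^ 2 + p.2 ^ 2 := fun h => hp (by simp [hm0 p h])
    rw [not_le] at h1
    refine ⟨abs_le.1 (abs_le_of_sq_le_sq ?_ hS0), abs_le.1 (abs_le_of_sq_le_sq ?_ hS0)⟩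
    · nlinarith [sq_nonneg p.2]
    · nlinarith [sq_nonneg p.1]
  have hB : ∫ x, F x = ∫ p, H p := by
    rw [cart hF hc]
    have h1 := integral_prod_symm H hHi
    refine Eq.trans ?_ h1.symm
    refine integral_congr_ae (Eventually.of_forall fun w => ?_)
    change ∫ q : ℝ × ℝ, F (P3 q.1 q.2 w) = ∫ ρ : ℝ, H (ρ, w)
    rw [hA w, ← integral_indicator measurableSet_Ioi]
    refine integral_congr_ae (Eventually.of_forall fun ρ => ?_)
    by_cases h : ρ ∈ Ioi (0 : ℝ)
    · rw [indicator_of_mem h]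
      simp only [hH]
      rw [indicator_of_mem (show (ρ, w) ∈ Ioi (0 : ℝ) ×ˢ (univ : Set ℝ) from ⟨h, mem_univ _⟩)]
    · rw [indicator_of_notMem h]
      simp only [hH]
      rw [indicator_of_notMem (fun h' => h h'.1)]
  -- step C
  have hH0 : ∀ r t : ℝ, S ≤ |r| → H (r * cos t, r * sin t) = 0 := by
    intro r t hr
    simp only [hH]
    rw [indicator]
    split_ifs with h
    · rw [hm0, mul_zero]
      have h1 := pow_le_pow_left₀ hS0 hr 2
      rw [sq_abs] at h1
      have h2 := sin_sq_add_cos_sq t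
      have h5 : (r * cos t) ^ 2 + (r * sin t) ^ 2 = r ^ 2 := by linear_combination r ^ 2 * h2
      exact h1.trans h5.ge
    · rfl
  have hHb : ∀ r t : ℝ, |H (r * cos t, r * sin t)| ≤ S * (M * (2 * π)) := by
    intro r t
    have h3 : 0 ≤ S * (M * (2 * π)) := by have := pi_pos; positivity
    by_cases hr : S ≤ |r|
    · rw [hH0 r t hr, abs_zero]
      exact h3
    · simp only [hH]
      rw [indicator]
      split_ifs with h
      · rw [abs_mul]
        refine mul_le_mul ?_ (hmb _) (abs_nonneg _) hS0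
        rw [abs_mul]
        have h4 := abs_cos_le_one t
        have h5 := not_le.1 hr
        nlinarith [abs_nonneg r, abs_nonneg (cos t)]
      · rw [abs_zero]
        exact h3
  have hC : ∫ p, H p = ∫ r in Ioi (0 : ℝ), ∫ t in Ioo (-π) π, r * H (r * cos t, r * sin t) := by
    rw [← integral_comp_polarCoord_symm, polarCoord_target]
    have h1 : IntegrableOn (fun p : ℝ × ℝ => p.1 * H (p.1 * cos p.2, p.1 * sin p.2))
        (Ioi 0 ×ˢ Ioo (-π) π) (volume.prod volume) := by
      refine intOn_strip (M := S * (S * (M * (2 * π)))) (R := S) ?_ ?_ ?_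
      · refine measurable_fst.mul (hHm.comp ?_)
        exact Continuous.measurable (by fun_prop)
      · intro p
        by_cases h : S ≤ |p.1|
        · rw [hH0 _ _ h, mul_zero, abs_zero]
          have := pi_pos
          positivity
        · rw [abs_mul]
          exact mul_le_mul (not_le.1 h).le (hHb _ _) (abs_nonneg _) hS0
      · intro p hp
        rw [hH0 _ _ (hp.le.trans (le_abs_self _)), mul_zero]
    exact setIntegral_prod _ h1
  rw [hB, hC]
  refine setIntegral_congr_fun measurableSet_Ioi fun r hr => ?_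
  have hr : 0 < r := hr
  -- step D
  have hpi := pi_pos
  have d1 : ∫ t in Ioo (-π) π, r * H (r * cos t, r * sin t) =
      ∫ t in Ioo (-(π / 2)) (π / 2), r * H (r * cos t, r * sin t) := by
    refine (setIntegral_eq_of_subset_of_forall_sdiff_eq_zero measurableSet_Ioo
      (Ioo_subset_Ioo (by linarith) (by linarith)) ?_)
    rintro t ⟨⟨ht1, ht2⟩, ht3⟩
    have h1 : cos t ≤ 0 := by
      rw [mem_Ioo, not_and_or, not_lt, not_lt] at ht3
      rcases ht3 with h | h
      · rw [← cos_neg]
        exact cos_nonpos_of_pi_div_two_le_of_le (by linarith) (by linarith)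
      · exact cos_nonpos_of_pi_div_two_le_of_le h (by linarith)
    have h2 : H (r * cos t, r * sin t) = 0 := by
      simp only [hH]
      rw [indicator_of_notMem]
      rintro ⟨h, -⟩
      have h : 0 < r * cos t := h
      nlinarith
    rw [h2, mul_zero]
  set k : ℝ → ℝ := fun z => r ^ 2 * m (r * √(1 - z ^ 2), r * z) with hk
  have hkc : Continuous k := by
    have h1 : Continuous fun z : ℝ => (r * √(1 - z ^ 2), r * z) := by fun_prop
    exact continuous_const.mul (hmc.comp h1)
  have d2 : ∫ t in Ioo (-(π / 2)) (π / 2), r * H (r * cos t, r * sin t) =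
      ∫ t in (-(π / 2))..(π / 2), (k ∘ sin) t * cos t := by
    rw [intervalIntegral.integral_of_le (by linarith), integral_Ioc_eq_integral_Ioo]
    refine setIntegral_congr_fun measurableSet_Ioo fun t ht => ?_
    have h1 : 0 < cos t := cos_pos_of_mem_Ioo ht
    have h2 : √(1 - sin t ^ 2) = cos t := by
      rw [← cos_sq', sqrt_sq h1.le]
    simp only [hH, hk, Function.comp, h2]
    rw [indicator_of_mem (show (r * cos t, r * sin t) ∈ Ioi (0 : ℝ) ×ˢ (univ : Set ℝ) from
      ⟨mul_pos hr h1, mem_univ _⟩)]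
    ring
  have d3 : ∫ t in (-(π / 2))..(π / 2), (k ∘ sin) t * cos t = ∫ z in (-1 : ℝ)..1, k z := by
    rw [intervalIntegral.integral_comp_mul_deriv (fun x _ => hasDerivAt_sin x)
      continuous_cos.continuousOn hkc, sin_neg, sin_pi_div_two]
  change ∫ t in Ioo (-π) π, r * H (r * cos t, r * sin t) = _
  rw [d1, d2, d3]
  refine intervalIntegral.integral_congr fun z _ => ?_
  simp only [hk, hm]
  rw [← intervalIntegral.integral_const_mul]
  rfl

end Pool.Agent.H94.HN
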