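import Pool.Agent.H99.HN.Targets

/-!
Module TRUNC of MP_6a9259_mp: growth and truncation of multipliers.
-/

namespace Pool.Agent.H94.HN

open Pool.Agent.H99.HM Pool.Agent.H99.HN
open MeasureTheory Set Filter Topology Real

lemma mR_zero (R : ℝ) : mR R 0 = 0 := by simp [mR]

lemma mR_pos {R r : ℝ} (hR : 0 < R) (hr : 0 < r) : 0 < mR R r := by
  unfold mR; positivity

lemma mR_nonneg {R r : ℝ} (hR : 0 < R) (hr : 0 ≤ r) : 0 ≤ mR R r := by
  unfold mR; positivity

lemma mR_le {R r : ℝ} (hR : 0 < R) (hr : 0 ≤ r) : mR R r ≤ r := by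
  unfold mR
  rw [div_le_iff₀ (by positivity)]
  nlinarith [mul_nonneg hr hr]

lemma mR_le' {R r : ℝ} (hR : 0 < R) (hr : 0 ≤ r) : mR R r ≤ R := by
  unfold mR
  rw [div_le_iff₀ (by positivity)]
  nlinarith

lemma hasDerivAt_mR {R r : ℝ} (hR : 0 < R) (hr : 0 < r) :
    HasDerivAt (mR R) ((R / (R + r)) ^ 2) r := by
  have h0 : R + r ≠ 0 := by positivity
  have h1 : HasDerivAt (fun r : ℝ => R * r / (R + r)) ((R * 1 * (R + r) - R * r * (0 + 1)) /
      (R + r) ^ 2) r :=
    ((hasDerivAt_id' r).const_mul R).fun_div ((hasDerivAt_const r R).fun_add (hasDerivAt_id' r)) h0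
  have h2 : (R * 1 * (R + r) - R * r * (0 + 1)) / (R + r) ^ 2 = (R / (R + r)) ^ 2 := by
    field_simp
    ring
  rw [h2] at h1
  exact h1

lemma continuousOn_mR {R : ℝ} (hR : 0 < R) : ContinuousOn (mR R) (Ici 0) := by
  intro r hr
  have hr : 0 ≤ r := hr
  have h0 : R + r ≠ 0 := by positivity
  exact ((continuousAt_const.mul continuousAt_id).div (continuousAt_const.add continuousAt_id)
    h0).continuousWithinAt

lemma mult_growth {h h1 : ℝ → ℝ} (hM : Mult h h1) {r : ℝ} (hr : 1 ≤ r) : h r ≤ h 1 * r ^ 3 := by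
  have hder : ∀ x : ℝ, 0 < x → HasDerivAt (fun x => h x / x ^ 3)
      ((h1 x * x ^ 3 - h x * (3 * x ^ 2)) / (x ^ 3) ^ 2) x := by
    intro x hx
    have h3 : HasDerivAt (fun x : ℝ => x ^ 3) (3 * x ^ 2) x := by
      simpa using hasDerivAt_pow 3 x
    exact (hM.der x hx).fun_div h3 (by positivity)
  have hanti : AntitoneOn (fun x => h x / x ^ 3) (Ici 1) := by
    refine antitoneOn_of_deriv_nonpos (convex_Ici 1) ?_ ?_ ?_
    · intro x hx
      have hx : 1 ≤ x := hx
      exact (hder x (by linarith)).continuousAt.continuousWithinAt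
    · intro x hx
      rw [interior_Ici] at hx
      have hx : 1 < x := hx
      exact (hder x (by linarith)).differentiableAt.differentiableWithinAt
    · intro x hx
      rw [interior_Ici] at hx
      have hx : 1 < x := hx
      have hx0 : 0 < x := by linarith
      rw [(hder x hx0).deriv]
      refine div_nonpos_of_nonpos_of_nonneg ?_ (by positivity)
      have h3 := (abs_le.1 (hM.b3 x hx0)).2
      have h4 : h1 x * x ^ 3 - h x * (3 * x ^ 2) = (x * h1 x - 3 * h x) * x ^ 2 := by ring
      rw [h4]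
      exact mul_nonpos_of_nonpos_of_nonneg (by linarith) (by positivity)
  have := hanti (mem_Ici.2 (le_refl (1 : ℝ))) (mem_Ici.2 hr) hr
  simp only [one_pow, div_one] at this
  rwa [div_le_iff₀ (by positivity)] at this

theorem trunc : T_trunc := by
  intro h h1 hM
  obtain ⟨A, hA⟩ : ∃ A, ∀ x ∈ Icc (0 : ℝ) 1, ‖h x‖ ≤ A :=
    isCompact_Icc.exists_bound_of_continuousOn (hM.cont.mono Icc_subset_Ici_self)
  obtain ⟨B, hB⟩ : ∃ B, ∀ x ∈ Icc (0 : ℝ) 1, ‖h1 x‖ ≤ B :=
    isCompact_Icc.exists_bound_of_continuousOn (hM.cont1.mono Icc_subset_Ici_self)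
  have hA0 : 0 ≤ A := (norm_nonneg _).trans (hA 0 (by simp))
  have hB0 : 0 ≤ B := (norm_nonneg _).trans (hB 0 (by simp))
  have h10 : 0 < h 1 := hM.pos 1 one_pos
  set C : ℝ := A + B + 3 * h 1 with hC
  have hCpos : 0 < C := by positivity
  have hnn : ∀ r, 0 ≤ r → 0 ≤ h r := by
    intro r hr
    rcases hr.eq_or_lt with h | h
    · rw [← h]; exact hM.nn
    · exact (hM.pos r h).le
  have hb : ∀ r, 0 ≤ r → h r ≤ C * (1 + r ^ 3) ∧ |h1 r| ≤ C * (1 + r ^ 2) := by
    intro r hr
    rcases le_total r 1 with hr1 | hr1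
    · have e1 := hA r ⟨hr, hr1⟩
      have e2 := hB r ⟨hr, hr1⟩
      rw [Real.norm_eq_abs] at e1 e2
      constructor
      · calc h r ≤ A := (le_abs_self _).trans e1
          _ ≤ C * 1 := by rw [hC]; linarith
          _ ≤ C * (1 + r ^ 3) := by gcongr; have := pow_nonneg hr 3; linarith
      · calc |h1 r| ≤ B := e2
          _ ≤ C * 1 := by rw [hC]; linarith
          _ ≤ C * (1 + r ^ 2) := by gcongr; have := pow_nonneg hr 2; linarith
    · have hr0 : 0 < r := by linarith
      have e1 := mult_growth hM hr1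
      constructor
      · calc h r ≤ h 1 * r ^ 3 := e1
          _ ≤ C * r ^ 3 := by gcongr; rw [hC]; linarith
          _ ≤ C * (1 + r ^ 3) := by gcongr; linarith
      · have e2 := hM.b3 r hr0
        rw [abs_mul, abs_of_pos hr0] at e2
        have e3 : r * |h1 r| ≤ r * (3 * h 1 * r ^ 2) := by
          calc r * |h1 r| ≤ 3 * h r := e2
            _ ≤ 3 * (h 1 * r ^ 3) := by gcongr
            _ = r * (3 * h 1 * r ^ 2) := by ring
        calc |h1 r| ≤ 3 * h 1 * r ^ 2 := le_of_mul_le_mul_left e3 hr0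
          _ ≤ C * r ^ 2 := by gcongr; rw [hC]; linarith
          _ ≤ C * (1 + r ^ 2) := by gcongr; linarith
  refine ⟨C, hCpos, hb, fun R hR => ⟨?_, ?_, ?_⟩⟩
  · constructor
    · exact fun r hr => hM.pos _ (mR_pos hR hr)
    · change 0 ≤ h (mR R 0)
      rw [mR_zero]
      exact hM.nn
    · exact hM.cont.comp (continuousOn_mR hR) fun r hr => mR_nonneg hR hr
    · refine (hM.cont1.comp (continuousOn_mR hR) fun r hr => mR_nonneg hR hr).mul ?_
      intro r hr
      have hr : 0 ≤ r := hr
      have h0 : R + r ≠ 0 := by positivity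
      exact ((continuousAt_const.div (continuousAt_const.add continuousAt_id)
        h0).pow 2).continuousWithinAt
    · intro r hr
      exact (hM.der _ (mR_pos hR hr)).comp r (hasDerivAt_mR hR hr)
    · change h1 (mR R 0) * _ = 0
      rw [mR_zero, hM.zero, zero_mul]
    · intro r hr
      have e1 := hM.b3 _ (mR_pos hR hr)
      have e2 : r * (h1 (mR R r) * (R / (R + r)) ^ 2) =
          (mR R r * h1 (mR R r)) * (R / (R + r)) := by
        have h0 : R + r ≠ 0 := by positivity
        have h5 : r * (R / (R + r)) = mR R r := by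
          rw [mR]
          ring
        rw [← h5]
        ring
      rw [e2, abs_mul]
      have e3 : 0 ≤ R / (R + r) := by positivity
      have e4 : R / (R + r) ≤ 1 := by
        rw [div_le_one (by positivity)]
        linarith
      rw [abs_of_nonneg e3]
      have e5 := hM.pos _ (mR_pos hR hr)
      calc |mR R r * h1 (mR R r)| * (R / (R + r)) ≤ 3 * h (mR R r) * 1 := by
            gcongr
        _ = 3 * h (mR R r) := mul_one _
  · refine ⟨C * (1 + R ^ 3), fun r hr => (hb _ (mR_nonneg hR hr)).1.trans ?_⟩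
    have e1 := mR_nonneg hR hr
    have e2 := mR_le' hR hr
    gcongr
  · intro r hr
    refine (hb _ (mR_nonneg hR hr)).1.trans ?_
    have e1 := mR_nonneg hR hr
    have e2 := mR_le hR hr
    gcongr

end Pool.Agent.H94.HN
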