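import Pool.Agent.H99.HN.Targets
import Pool.Agent.H49.HM.GS3C

/-!
Integrals of partial derivatives of functions with a bounded singularity at the origin.
-/

namespace Pool.Agent.H94.HN

open Pool.Agent.H99.HM Pool.Agent.H99.HN
open MeasureTheory Set Filter Topology Real
open scoped ContDiff

/-- a fixed bump function -/
noncomputable def bmp : ContDiffBump (0 : E3) := ⟨1, 2, one_pos, one_lt_two⟩

lemma bmp_one {x : E3} (hx : ‖x‖ ≤ 1) : bmp x = 1 :=
  bmp.one_of_mem_closedBall (by rw [mem_closedBall_zero_iff]; exact hx)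

lemma bmp_zero {x : E3} (hx : 2 ≤ ‖x‖) : bmp x = 0 :=
  bmp.zero_of_le_dist (by rw [dist_zero_right]; exact hx)

lemma isTest_bmp : IsTest (fun x => bmp x) := ⟨bmp.contDiff, bmp.hasCompactSupport⟩

/-- the cutoff near the origin -/
noncomputable def eta (n : ℕ) (x : E3) : ℝ := 1 - bmp (((n : ℝ) + 1) • x)

lemma eta_differentiable (n : ℕ) : Differentiable ℝ (eta n) := by
  have h1 : Differentiable ℝ (fun x : E3 => bmp x) := bmp.contDiff.differentiable (n := 1) one_ne_zero
  have h2 : Differentiable ℝ (fun x : E3 => ((n : ℝ) + 1) • x) := by fun_prop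
  exact (differentiable_const _).sub (h1.comp h2)

lemma pd_eta (n : ℕ) (i : Fin 3) (x : E3) :
    pd i (eta n) x = -(((n : ℝ) + 1) * pd i (fun x => bmp x) (((n : ℝ) + 1) • x)) := by
  have h1 : Differentiable ℝ (fun x : E3 => bmp x) := bmp.contDiff.differentiable (n := 1) one_ne_zero
  have h2 : HasFDerivAt (fun x : E3 => ((n : ℝ) + 1) • x) (((n : ℝ) + 1) •
      (ContinuousLinearMap.id ℝ E3)) x := (hasFDerivAt_id x).fun_const_smul _
  have h3 := ((h1 (((n : ℝ) + 1) • x)).hasFDerivAt.comp x h2).const_sub 1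
  have h4 : fderiv ℝ (eta n) x = _ := h3.fderiv
  rw [pd, h4]
  simp [pd]

lemma eta_bounds (n : ℕ) (x : E3) : |eta n x| ≤ 1 := by
  have h1 := bmp.nonneg (x := ((n : ℝ) + 1) • x)
  have h2 := bmp.le_one (x := ((n : ℝ) + 1) • x)
  rw [eta, abs_le]
  constructor <;> linarith

lemma eta_zero {n : ℕ} {x : E3} (hx : ((n : ℝ) + 1) * ‖x‖ ≤ 1) : eta n x = 0 := by
  rw [eta, bmp_one, sub_self]
  rwa [norm_smul, Real.norm_eq_abs, abs_of_nonneg (by positivity)]

lemma tsupport_eta (n : ℕ) : ∀ x ∈ tsupport (eta n), x ≠ 0 := by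
  rintro x hx rfl
  rw [tsupport, _root_.mem_closure_iff] at hx
  obtain ⟨y, hy, hy2⟩ := hx (Metric.ball 0 (((n : ℝ) + 1)⁻¹)) Metric.isOpen_ball
    (Metric.mem_ball_self (by positivity))
  rw [Metric.mem_ball, dist_zero_right] at hy
  refine hy2 (eta_zero ?_)
  rw [mul_comm, ← le_div_iff₀ (by positivity), one_div]
  exact hy.le

lemma eta_tendsto {x : E3} (hx : x ≠ 0) : Tendsto (fun n => eta n x) atTop (𝓝 1) := by
  have hx' : 0 < ‖x‖ := norm_pos_iff.2 hx
  refine tendsto_const_nhds.congr' ?_
  obtain ⟨N, hN⟩ := exists_nat_gt (2 / ‖x‖)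
  filter_upwards [eventually_ge_atTop N] with n hn
  rw [eta, bmp_zero, sub_zero]
  rw [norm_smul, Real.norm_eq_abs, abs_of_nonneg (by positivity)]
  rw [div_lt_iff₀ hx'] at hN
  have h1 : (N : ℝ) ≤ n := by exact_mod_cast hn
  nlinarith

lemma ae_ne_zero : ∀ᵐ x : E3, x ≠ 0 := by
  have : (volume : Measure E3) {(0 : E3)} = 0 := measure_singleton _
  rw [ae_iff]
  simp

/-- measurability of functions continuous off the origin -/
lemma aesm_of_cont {X : E3 → ℝ} (h : ∀ x, x ≠ 0 → ContinuousAt X x) :
    AEStronglyMeasurable X volume := by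
  have h2 : ContinuousOn X ({0}ᶜ : Set E3) := fun x hx => (h x hx).continuousWithinAt
  have h3 := h2.aestronglyMeasurable (μ := volume) (measurableSet_singleton (0 : E3)).compl
  rwa [restrict_compl_singleton] at h3

/-- integrals of derivatives vanish -/
theorem integral_pd_eq_zero {X : E3 → ℝ} {C R : ℝ} (i : Fin 3)
    (hd : ∀ x, x ≠ 0 → DifferentiableAt ℝ X x) (hb : ∀ x, |X x| ≤ C)
    (hR : ∀ x, R ≤ ‖x‖ → X x = 0) (hi : Integrable (fun x => pd i X x)) :
    ∫ x, pd i X x = 0 := by
  have hXm : AEStronglyMeasurable X volume := aesm_of_cont fun x hx => (hd x hx).continuousAt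
  have hC : 0 ≤ C := (abs_nonneg _).trans (hb 0)
  have hsupp : HasCompactSupport X := by
    refine HasCompactSupport.of_support_subset_isCompact (isCompact_closedBall (0 : E3) R) ?_
    intro x hx
    rw [mem_closedBall_zero_iff]
    by_contra h
    exact hx (hR x (not_le.1 h).le)
  have hXi : Integrable X := by
    have h1 : IntegrableOn X (Metric.closedBall 0 R) := by
      refine Measure.integrableOn_of_bounded (M := C)
        (isCompact_closedBall (0 : E3) R).measure_lt_top.ne hXm ?_
      exact Eventually.of_forall fun x => by rw [Real.norm_eq_abs]; exact hb x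
    refine (integrableOn_iff_integrable_of_support_subset ?_).1 h1
    intro x hx
    rw [mem_closedBall_zero_iff]
    by_contra h
    exact hx (hR x (not_le.1 h).le)
  have hpe : ∀ n, Continuous (fun x => pd i (eta n) x) := by
    intro n
    have h1 : Continuous (fun x => pd i (fun x => bmp x) x) :=
      (Pool.Agent.H49.HM.contDiff_pd isTest_bmp i).1.continuous
    simp only [pd_eta]
    exact ((h1.comp (continuous_const_smul _)).const_mul _).neg
  have hkey : ∀ n, ∫ x, eta n x * pd i X x = - ∫ x, pd i (eta n) x * X x := by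
    intro n
    refine integral_mul_fderiv_eq_neg_fderiv_mul_of_integrable ?_ ?_ ?_ ?_ ?_
    · obtain ⟨D, hD⟩ : ∃ D, ∀ x, ‖pd i (fun x => bmp x) x‖ ≤ D :=
        (Pool.Agent.H49.HM.contDiff_pd isTest_bmp i).2.exists_bound_of_continuous
          (Pool.Agent.H49.HM.contDiff_pd isTest_bmp i).1.continuous
      refine hXi.bdd_mul (c := ((n : ℝ) + 1) * D) (hpe n).aestronglyMeasurable ?_
      refine Eventually.of_forall fun x => ?_
      change ‖pd i (eta n) x‖ ≤ _
      rw [pd_eta, norm_neg, norm_mul, Real.norm_eq_abs, abs_of_nonneg (by positivity)]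
      gcongr
      exact hD _
    · refine hi.bdd_mul (c := 1) (eta_differentiable n).continuous.aestronglyMeasurable ?_
      exact Eventually.of_forall fun x => by rw [Real.norm_eq_abs]; exact eta_bounds n x
    · refine hXi.bdd_mul (c := 1) (eta_differentiable n).continuous.aestronglyMeasurable ?_
      exact Eventually.of_forall fun x => by rw [Real.norm_eq_abs]; exact eta_bounds n x
    · exact fun x _ => eta_differentiable n x
    · exact fun x hx => hd x (tsupport_eta n x hx)
  have hL : Tendsto (fun n => ∫ x, eta n x * pd i X x) atTop (𝓝 (∫ x, pd i X x)) := by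
    refine tendsto_integral_of_dominated_convergence (fun x => ‖pd i X x‖) ?_ hi.norm ?_ ?_
    · exact fun n => (eta_differentiable n).continuous.aestronglyMeasurable.mul
        hi.aestronglyMeasurable
    · intro n
      refine Eventually.of_forall fun x => ?_
      rw [norm_mul, Real.norm_eq_abs]
      have := eta_bounds n x
      have h2 := norm_nonneg (pd i X x)
      nlinarith
    · filter_upwards [ae_ne_zero] with x hx
      simpa using (eta_tendsto hx).mul_const (pd i X x)
  have hRt : Tendsto (fun n => - ∫ x, pd i (eta n) x * X x) atTop (𝓝 0) := by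
    have hgi : Integrable (fun x : E3 => |pd i (fun x => bmp x) x|) :=
      ((Pool.Agent.H49.HM.contDiff_pd isTest_bmp i).1.continuous.integrable_of_hasCompactSupport
        (Pool.Agent.H49.HM.contDiff_pd isTest_bmp i).2).abs
    set I : ℝ := ∫ x : E3, |pd i (fun x => bmp x) x| with hI
    have hI0 : 0 ≤ I := integral_nonneg fun x => abs_nonneg _
    have hle : ∀ n : ℕ, ‖- ∫ x, pd i (eta n) x * X x‖ ≤ C * I * (1 / ((n : ℝ) + 1)) := by
      intro n
      have hn : (0 : ℝ) < (n : ℝ) + 1 := by positivity
      rw [norm_neg]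
      have h1 : ‖∫ x, pd i (eta n) x * X x‖ ≤
          ∫ x, ((n : ℝ) + 1) * C * |pd i (fun x => bmp x) (((n : ℝ) + 1) • x)| := by
        refine norm_integral_le_of_norm_le ?_ ?_
        · exact ((integrable_comp_smul_iff volume _ hn.ne').2 hgi).const_mul _
        · refine Eventually.of_forall fun x => ?_
          rw [pd_eta, norm_mul, norm_neg, norm_mul, Real.norm_eq_abs, Real.norm_eq_abs,
            Real.norm_eq_abs, abs_of_pos hn]
          have := hb x
          have h2 := abs_nonneg (pd i (fun x => bmp x) (((n : ℝ) + 1) • x))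
          calc ((n : ℝ) + 1) * |pd i (fun x => bmp x) (((n : ℝ) + 1) • x)| * |X x|
              ≤ ((n : ℝ) + 1) * |pd i (fun x => bmp x) (((n : ℝ) + 1) • x)| * C := by gcongr
            _ = _ := by ring
      refine h1.trans ?_
      rw [integral_const_mul, Measure.integral_comp_smul volume
        (fun x : E3 => |pd i (fun x => bmp x) x|) ((n : ℝ) + 1), ← hI]
      simp only [finrank_euclideanSpace, Fintype.card_fin, smul_eq_mul]
      rw [abs_of_pos (by positivity)]
      have h3 : ((n : ℝ) + 1) * C * ((((n : ℝ) + 1) ^ 3)⁻¹ * I) =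
          C * I * (1 / ((n : ℝ) + 1)) * (1 / ((n : ℝ) + 1)) := by
        field_simp
      rw [h3]
      have h4 : 1 / ((n : ℝ) + 1) ≤ 1 := by
        rw [div_le_one hn]
        linarith [Nat.cast_nonneg (α := ℝ) n]
      have h5 : 0 ≤ C * I * (1 / ((n : ℝ) + 1)) := by positivity
      nlinarith
    refine squeeze_zero_norm hle ?_
    simpa using (tendsto_one_div_add_atTop_nhds_zero_nat (𝕜 := ℝ)).const_mul (C * I)
  have := tendsto_nhds_unique (hL.congr hkey) hRt
  exact this

end Pool.Agent.H94.HN
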