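import Pool.Agent.H94.HN.Div0
import Pool.Agent.H41.HM.Polar

/-!
Calculus of partial derivatives off the origin.
-/

namespace Pool.Agent.H94.HN

open Pool.Agent.H99.HM Pool.Agent.H99.HN
open MeasureTheory Set Filter Topology Real
open scoped ContDiff

/-- `F` is differentiable at `x` with `i`-th partial derivative `a` -/
def HasPd (i : Fin 3) (F : E3 → ℝ) (a : ℝ) (x : E3) : Prop :=
  DifferentiableAt ℝ F x ∧ pd i F x = a

lemma HasPd.mul {i : Fin 3} {F G : E3 → ℝ} {a b : ℝ} {x : E3} (hF : HasPd i F a x)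
    (hG : HasPd i G b x) : HasPd i (fun x => F x * G x) (F x * b + a * G x) x := by
  refine ⟨hF.1.fun_mul hG.1, ?_⟩
  have h := (hF.1.hasFDerivAt.fun_mul hG.1.hasFDerivAt).fderiv
  rw [pd, h]
  have h1 := hF.2
  have h2 := hG.2
  unfold pd at h1 h2
  simp only [add_apply, smul_apply, smul_eq_mul, h1, h2]
  ring

lemma HasPd.add {i : Fin 3} {F G : E3 → ℝ} {a b : ℝ} {x : E3} (hF : HasPd i F a x)
    (hG : HasPd i G b x) : HasPd i (fun x => F x + G x) (a + b) x := by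
  refine ⟨hF.1.fun_add hG.1, ?_⟩
  have h := (hF.1.hasFDerivAt.fun_add hG.1.hasFDerivAt).fderiv
  rw [pd, h]
  have h1 := hF.2
  have h2 := hG.2
  unfold pd at h1 h2
  simp only [add_apply, h1, h2]

lemma HasPd.sub {i : Fin 3} {F G : E3 → ℝ} {a b : ℝ} {x : E3} (hF : HasPd i F a x)
    (hG : HasPd i G b x) : HasPd i (fun x => F x - G x) (a - b) x := by
  refine ⟨hF.1.fun_sub hG.1, ?_⟩
  have h := (hF.1.hasFDerivAt.fun_sub hG.1.hasFDerivAt).fderiv
  rw [pd, h]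
  have h1 := hF.2
  have h2 := hG.2
  unfold pd at h1 h2
  simp only [sub_apply, h1, h2]

lemma HasPd.const_mul {i : Fin 3} {F : E3 → ℝ} {a : ℝ} {x : E3} (c : ℝ) (hF : HasPd i F a x) :
    HasPd i (fun x => c * F x) (c * a) x := by
  refine ⟨hF.1.const_mul c, ?_⟩
  have h := (hF.1.hasFDerivAt.const_mul c).fderiv
  rw [pd, h]
  have h1 := hF.2
  unfold pd at h1
  simp only [smul_apply, smul_eq_mul, h1]

lemma HasPd.sum {ι : Type*} {i : Fin 3} {F : ι → E3 → ℝ} {a : ι → ℝ} {x : E3} (s : Finset ι)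
    (hF : ∀ j ∈ s, HasPd i (F j) (a j) x) :
    HasPd i (fun x => ∑ j ∈ s, F j x) (∑ j ∈ s, a j) x := by
  classical
  induction s using Finset.induction_on with
  | empty =>
    simp only [Finset.sum_empty]
    exact ⟨differentiableAt_const _, by simp [pd]⟩
  | insert j s hj ih =>
    simp only [Finset.sum_insert hj]
    exact (hF j (Finset.mem_insert_self j s)).add
      (ih fun k hk => hF k (Finset.mem_insert_of_mem hk))

lemma hasPd_of_diff {i : Fin 3} {F : E3 → ℝ} {x : E3} (h : DifferentiableAt ℝ F x) :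
    HasPd i F (pd i F x) x := ⟨h, rfl⟩

lemma hasPd_coord (i j : Fin 3) (x : E3) :
    HasPd i (fun x : E3 => x j) (if i = j then 1 else 0) x := by
  have h : HasFDerivAt (fun x : E3 => x j) (EuclideanSpace.proj j : E3 →L[ℝ] ℝ) x :=
    (EuclideanSpace.proj j : E3 →L[ℝ] ℝ).hasFDerivAt
  refine ⟨h.differentiableAt, ?_⟩
  rw [pd, h.fderiv]
  by_cases hij : i = j
  · subst hij
    simp
  · have : j ≠ i := fun h => hij h.symm
    simp [hij, this]

lemma hasFDerivAt_norm' {x : E3} (hx : x ≠ 0) :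
    HasFDerivAt (fun x : E3 => ‖x‖) ((1 / ‖x‖) • (innerSL ℝ x)) x := by
  have h1 := (hasStrictFDerivAt_norm_sq x).hasFDerivAt.sqrt (by positivity)
  have h2 : (fun y : E3 => √(‖y‖ ^ 2)) = fun y => ‖y‖ := by
    funext y
    exact Real.sqrt_sq (norm_nonneg y)
  rw [h2, Real.sqrt_sq (norm_nonneg x)] at h1
  have hx' : 0 < ‖x‖ := norm_pos_iff.2 hx
  have h3 : (1 / (2 * ‖x‖)) • (2 : ℕ) • (innerSL ℝ x) = (1 / ‖x‖) • (innerSL ℝ x) := by
    rw [← Nat.cast_smul_eq_nsmul ℝ, smul_smul]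
    congr 1
    push_cast
    field_simp
  rw [h3] at h1
  exact h1

lemma hasPd_radial {B : ℝ → ℝ} {b : ℝ} {x : E3} (hx : x ≠ 0) (hB : HasDerivAt B b ‖x‖)
    (i : Fin 3) : HasPd i (fun x : E3 => B ‖x‖) (b * (x i / ‖x‖)) x := by
  have h := hB.comp_hasFDerivAt x (hasFDerivAt_norm' hx)
  refine ⟨h.differentiableAt, ?_⟩
  rw [pd]
  have h' : fderiv ℝ (fun x : E3 => B ‖x‖) x = _ := h.fderiv
  rw [h']
  have h3 : inner ℝ x (EuclideanSpace.single i (1 : ℝ)) = x i := by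
    rw [EuclideanSpace.inner_single_right]
    simp
  simp only [smul_apply, innerSL_apply_apply, smul_eq_mul, h3]
  ring

/-- partial derivatives of `x_j / |x|` -/
lemma hasPd_dir {x : E3} (hx : x ≠ 0) (i j : Fin 3) :
    HasPd i (fun x : E3 => x j / ‖x‖)
      ((if i = j then 1 else 0) / ‖x‖ - x i * x j / ‖x‖ ^ 3) x := by
  have hx' : 0 < ‖x‖ := norm_pos_iff.2 hx
  have h1 : HasDerivAt (fun r : ℝ => r⁻¹) (-(‖x‖ ^ 2)⁻¹) ‖x‖ := hasDerivAt_inv hx'.ne'
  have h2 := (hasPd_coord i j x).mul (hasPd_radial hx h1 i)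
  have h3 : (fun x : E3 => x j / ‖x‖) = fun x : E3 => x j * ‖x‖⁻¹ := by
    funext y
    rw [div_eq_mul_inv]
  rw [h3]
  refine ⟨h2.1, h2.2.trans ?_⟩
  field_simp
  ring

lemma sum_sq (x : E3) : ∑ i, x i ^ 2 = ‖x‖ ^ 2 := by
  rw [EuclideanSpace.norm_sq_eq]
  simp [sq_abs]

lemma sum_dir_sq {x : E3} (hx : x ≠ 0) : ∑ i, (x i / ‖x‖) ^ 2 = 1 := by
  have hx' : 0 < ‖x‖ := norm_pos_iff.2 hx
  simp only [div_pow]
  rw [← Finset.sum_div, sum_sq, div_self (by positivity)]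

lemma abs_coord_le (x : E3) (i : Fin 3) : |x i| ≤ ‖x‖ := by
  have := EuclideanSpace.norm_sq_eq x
  rw [← Real.norm_eq_abs]
  exact PiLp.norm_apply_le x i

lemma abs_dir_le (x : E3) (i : Fin 3) : |x i / ‖x‖| ≤ 1 := by
  rw [abs_div, abs_norm]
  exact div_le_one_of_le₀ (abs_coord_le x i) (norm_nonneg x)

/-- bounded by `C / |x|` on a ball, continuous off the origin -/
lemma integrable_of_inv {F : E3 → ℝ} {C R : ℝ} (hc : ∀ x, x ≠ 0 → ContinuousAt F x)
    (hb : ∀ x, x ≠ 0 → |F x| ≤ C / ‖x‖) (hR : ∀ x, R ≤ ‖x‖ → F x = 0) : Integrable F := by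
  refine (Pool.Agent.H49.HM.integrable_inv_norm Pool.Agent.H41.HM.polar C R).mono'
    (aesm_of_cont hc) ?_
  filter_upwards [ae_ne_zero] with x hx
  rw [Real.norm_eq_abs]
  by_cases h : ‖x‖ < R
  · rw [indicator_of_mem (mem_Iio.2 h)]
    exact hb x hx
  · rw [indicator_of_notMem (by simpa using h), hR x (not_lt.1 h), abs_zero]

end Pool.Agent.H94.HN
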